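import Pool.Agent.H60.VRg

namespace Pool.Agent.Results.MP_85b181_al.Yes
open H60.VR
universe u

theorem result : ∃ (Ψ : CM.{u} → Rng.{u})
    (F : ∀ {M N : CM.{u}}, (M.carrier →+ N.carrier) → ((Ψ M).carrier →ₙ+* (Ψ N).carrier))
    (η : ∀ M : CM.{u}, M.carrier ≃ VV (Ψ M).carrier),
    (∀ M : CM.{u}, F (AddMonoidHom.id M.carrier) = NonUnitalRingHom.id _) ∧
    (∀ (M N K : CM.{u}) (f : M.carrier →+ N.carrier) (g : N.carrier →+ K.carrier),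
      F (g.comp f) = (F g).comp (F f)) ∧
    (∀ M : CM.{u}, η M 0 = VV.zero _ ∧ ∀ x y, η M (x + y) = VV.add (η M x) (η M y)) ∧
    ∀ (M N : CM.{u}) (f : M.carrier →+ N.carrier) (x : M.carrier),
      VV.map (F f) (η M x) = η N (f x) :=
  ⟨fun M => ⟨(ps M).R⟩, fun f => Fm f, ηE, fun _ => Fm_id, fun _ _ _ f g => Fm_comp f g,
    fun _ => ⟨ηE_zero, ηE_add⟩, fun _ _ f => ηE_nat f⟩

end Pool.Agent.Results.MP_85b181_al.Yes
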